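import Mathlib

set_option autoImplicit false

/-! A `C^{1,1}` ramp from `1/2` to `-1/2`. -/

namespace Pool.Agent.W800.KH.Ramp

open Set Filter Topology

theorem hasDerivAt_q (t : ℝ) : HasDerivAt (fun t : ℝ => (max t 0) ^ 2) (2 * max t 0) t := by
  rcases lt_trichotomy t 0 with h | h | h
  · rw [max_eq_right h.le, mul_zero]
    have : (fun t : ℝ => (max t 0) ^ 2) =ᶠ[𝓝 t] fun _ => 0 := by
      filter_upwards [Iio_mem_nhds h] with s hs
      rw [max_eq_right (le_of_lt hs)]; ring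
    exact (hasDerivAt_const t (0 : ℝ)).congr_of_eventuallyEq this
  · subst h
    rw [max_self, mul_zero]
    rw [hasDerivAt_iff_isLittleO]
    have h1 : (fun x' : ℝ => (max x' 0) ^ 2 - (max (0 : ℝ) 0) ^ 2 - (x' - 0) • (0 : ℝ)) =O[𝓝 0]
        fun x' => x' ^ 2 := by
      refine Asymptotics.IsBigO.of_bound 1 (Eventually.of_forall fun s => ?_)
      simp only [max_self, smul_zero, sub_zero, one_mul]
      rw [zero_pow two_ne_zero, sub_zero, Real.norm_eq_abs, Real.norm_eq_abs, abs_pow, abs_pow]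
      refine pow_le_pow_left₀ (abs_nonneg _) ?_ 2
      rcases max_cases s 0 with ⟨h, _⟩ | ⟨h, _⟩
      · rw [h]
      · rw [h]; simp
    refine h1.trans_isLittleO ?_
    simpa using Asymptotics.isLittleO_pow_id (𝕜 := ℝ) one_lt_two
  · rw [max_eq_left h.le]
    have : (fun t : ℝ => (max t 0) ^ 2) =ᶠ[𝓝 t] fun s => s ^ 2 := by
      filter_upwards [Ioi_mem_nhds h] with s hs
      rw [max_eq_left (le_of_lt hs)]
    refine HasDerivAt.congr_of_eventuallyEq ?_ this
    simpa using hasDerivAt_pow 2 t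

noncomputable def hh (a τ η t : ℝ) : ℝ :=
  1 / 2 - ((max (t - η) 0) ^ 2 - (max (t - (η + τ)) 0) ^ 2 - (max (t - (η + a)) 0) ^ 2 +
    (max (t - (η + a + τ)) 0) ^ 2) / (2 * a * τ)

noncomputable def hd (a τ η t : ℝ) : ℝ :=
  -((max (t - η) 0) - (max (t - (η + τ)) 0) - (max (t - (η + a)) 0) +
    (max (t - (η + a + τ)) 0)) / (a * τ)

variable {a τ η : ℝ}

theorem hasDerivAt_hh (ha : 0 < a) (hτ : 0 < τ) (t : ℝ) : HasDerivAt (hh a τ η) (hd a τ η t) t := by
  have h : ∀ c : ℝ, HasDerivAt (fun t : ℝ => (max (t - c) 0) ^ 2) (2 * max (t - c) 0) t := by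
    intro c
    have h1 := (hasDerivAt_q (t - c)).comp t ((hasDerivAt_id t).sub_const c)
    simpa [Function.comp_def] using h1
  have h2 := (((((h η).sub (h (η + τ))).sub (h (η + a))).add (h (η + a + τ))).div_const
    (2 * a * τ)).const_sub (1 / 2)
  refine HasDerivAt.congr_deriv h2 ?_
  unfold hd
  field_simp

theorem hd_bd (ha : 0 < a) (hτ : 0 < τ) (t : ℝ) : hd a τ η t ≤ 0 ∧ |hd a τ η t| ≤ 1 / a := by
  have h1 : 0 ≤ (max (t - η) 0) - (max (t - (η + τ)) 0) - (max (t - (η + a)) 0) +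
      (max (t - (η + a + τ)) 0) := by
    rcases max_cases (t - η) 0 with ⟨h1, _⟩ | ⟨h1, _⟩ <;>
    rcases max_cases (t - (η + τ)) 0 with ⟨h2, _⟩ | ⟨h2, _⟩ <;>
    rcases max_cases (t - (η + a)) 0 with ⟨h3, _⟩ | ⟨h3, _⟩ <;>
    rcases max_cases (t - (η + a + τ)) 0 with ⟨h4, _⟩ | ⟨h4, _⟩ <;>
    rw [h1, h2, h3, h4] <;> linarith
  have h2 : (max (t - η) 0) - (max (t - (η + τ)) 0) - (max (t - (η + a)) 0) +
      (max (t - (η + a + τ)) 0) ≤ τ := by
    rcases max_cases (t - η) 0 with ⟨h1, _⟩ | ⟨h1, _⟩ <;>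
    rcases max_cases (t - (η + τ)) 0 with ⟨h2, _⟩ | ⟨h2, _⟩ <;>
    rcases max_cases (t - (η + a)) 0 with ⟨h3, _⟩ | ⟨h3, _⟩ <;>
    rcases max_cases (t - (η + a + τ)) 0 with ⟨h4, _⟩ | ⟨h4, _⟩ <;>
    rw [h1, h2, h3, h4] <;> linarith
  unfold hd
  have h3 : -((max (t - η) 0) - (max (t - (η + τ)) 0) - (max (t - (η + a)) 0) +
      (max (t - (η + a + τ)) 0)) / (a * τ) ≤ 0 := by
    rw [neg_div]
    have := div_nonneg h1 (mul_pos ha hτ).le
    linarith
  refine ⟨h3, ?_⟩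
  rw [abs_of_nonpos h3, neg_div, neg_neg, div_le_div_iff₀ (mul_pos ha hτ) ha]
  nlinarith

theorem hd_lip (ha : 0 < a) (hτ : 0 < τ) (s t : ℝ) :
    |hd a τ η s - hd a τ η t| ≤ 4 / (a * τ) * |s - t| := by
  have h : ∀ c : ℝ, |max (s - c) 0 - max (t - c) 0| ≤ |s - t| := by
    intro c
    refine (abs_max_sub_max_le_abs _ _ _).trans ?_
    rw [show s - c - (t - c) = s - t by ring]
  have h5 : hd a τ η s - hd a τ η t = -(((max (s - η) 0) - (max (t - η) 0)) -
      ((max (s - (η + τ)) 0) - (max (t - (η + τ)) 0)) -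
      ((max (s - (η + a)) 0) - (max (t - (η + a)) 0)) +
      ((max (s - (η + a + τ)) 0) - (max (t - (η + a + τ)) 0))) / (a * τ) := by
    unfold hd
    ring
  rw [h5, abs_div, abs_neg, abs_of_pos (mul_pos ha hτ), div_mul_eq_mul_div]
  refine div_le_div_of_nonneg_right ?_ (mul_pos ha hτ).le
  have h1 := abs_le.1 (h η)
  have h2 := abs_le.1 (h (η + τ))
  have h3 := abs_le.1 (h (η + a))
  have h4 := abs_le.1 (h (η + a + τ))
  rw [abs_le]
  constructor <;> linarith [h1.1, h1.2, h2.1, h2.2, h3.1, h3.2, h4.1, h4.2]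

theorem left (ha : 0 < a) (hτ : 0 < τ) (t : ℝ) (ht : t ≤ η) :
    hh a τ η t = 1 / 2 ∧ hd a τ η t = 0 := by
  unfold hh hd
  rw [max_eq_right (by linarith), max_eq_right (by linarith), max_eq_right (by linarith),
    max_eq_right (by linarith)]
  constructor <;> simp

theorem right (ha : 0 < a) (hτ : 0 < τ) (t : ℝ) (ht : η + a + τ ≤ t) :
    hh a τ η t = -(1 / 2) ∧ hd a τ η t = 0 := by
  unfold hh hd
  rw [max_eq_left (by linarith), max_eq_left (by linarith), max_eq_left (by linarith),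
    max_eq_left (by linarith)]
  constructor
  · field_simp
    ring
  · have : -(t - η - (t - (η + τ)) - (t - (η + a)) + (t - (η + a + τ))) = 0 := by ring
    rw [this, zero_div]

theorem hh_bd (ha : 0 < a) (hτ : 0 < τ) (t : ℝ) : |hh a τ η t| ≤ 1 / 2 := by
  have hanti : Antitone (hh a τ η) := by
    refine antitone_of_deriv_nonpos (fun t => (hasDerivAt_hh ha hτ t).differentiableAt) ?_
    intro t
    rw [(hasDerivAt_hh ha hτ t).deriv]
    exact (hd_bd ha hτ t).1
  rw [abs_le]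
  constructor
  · have h1 := hanti (le_max_left t (η + a + τ))
    rw [(right ha hτ _ (le_max_right _ _)).1] at h1
    exact h1
  · have h1 := hanti (min_le_left t η)
    rw [(left ha hτ _ (min_le_right _ _)).1] at h1
    exact h1

theorem contDiff_hh (ha : 0 < a) (hτ : 0 < τ) : ContDiff ℝ 1 (hh a τ η) := by
  rw [contDiff_one_iff_deriv]
  refine ⟨fun t => (hasDerivAt_hh ha hτ t).differentiableAt, ?_⟩
  have : deriv (hh a τ η) = hd a τ η := funext fun t => (hasDerivAt_hh ha hτ t).deriv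
  rw [this]
  unfold hd
  fun_prop

end Pool.Agent.W800.KH.Ramp
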