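import Pool.Agent.H59.L.S8.W800.KH.Conv

set_option autoImplicit false

/-! From functions to sets: De Giorgi perimeter. -/

namespace Pool.Agent.W800.KH

open MeasureTheory Set Filter Topology
open scoped ENNReal InnerProductSpace Pointwise Convolution
open Pool.Agent.W695.KH

section

variable {κ : Type} [Fintype κ]

theorem u_mem (φ : ContDiffBump (0 : Eu κ)) (E : Set (Eu κ)) (hE : MeasurableSet E) (x : Eu κ) :
    0 ≤ cv φ (E.indicator fun _ => (1 : ℝ)) x ∧ cv φ (E.indicator fun _ => (1 : ℝ)) x ≤ 1 := by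
  constructor
  · rw [cv_apply]
    refine integral_nonneg fun t => ?_
    exact smul_nonneg (φ.nonneg_normed _) (indicator_nonneg (fun _ _ => zero_le_one) _)
  · have := cv_norm_le φ (E.indicator fun _ => (1 : ℝ)) 1 (fun t => by
      refine (norm_indicator_le_norm_self _ _).trans ?_
      simp) x
    exact (le_abs_self _).trans this

theorem sm_f (φ : ContDiffBump (0 : Eu κ)) (E : Set (Eu κ)) (hE : MeasurableSet E)
    (hEb : Bornology.IsBounded E) (hEv : volume E ≠ ⊤) : ∃ L M : ℝ,
    Sm (fun x => cv φ (E.indicator fun _ => (1 : ℝ)) x - 1 / 2) L M := by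
  have hloc : LocallyIntegrable (E.indicator fun _ => (1 : ℝ)) (volume : Measure (Eu κ)) :=
    ((integrable_indicator_iff hE).2 (integrableOn_const hEv)).locallyIntegrable
  set u := cv φ (E.indicator fun _ => (1 : ℝ)) with hu
  have hu2 : ContDiff ℝ 2 u := cv_contDiff φ _ hloc 2
  have hcs : HasCompactSupport u := by
    refine HasCompactSupport.of_support_subset_isCompact
      (K := Metric.cthickening φ.rOut (closure E)) ?_ ?_
    · exact hEb.isCompact_closure.cthickening
    · exact cv_support φ _ (closure E) (fun t ht => indicator_of_notMem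
        (fun h => ht (subset_closure h)) _) _ le_rfl
  have hcf : ContDiff ℝ 1 (fderiv ℝ u) := hu2.fderiv_right (by norm_num)
  have hcs' : HasCompactSupport (fderiv ℝ u) := hcs.fderiv (𝕜 := ℝ)
  obtain ⟨L, hL⟩ := hcs'.exists_bound_of_continuous hcf.continuous
  obtain ⟨M, hM⟩ := hcf.lipschitzWith_of_hasCompactSupport hcs' one_ne_zero
  have hfd : ∀ x, fderiv ℝ (fun x => u x - 1 / 2) x = fderiv ℝ u x := fun x =>
    fderiv_sub_const _
  refine ⟨L, M, ⟨?_, ?_, ?_, ?_⟩⟩
  · intro x
    obtain ⟨h1, h2⟩ := u_mem φ E hE x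
    rw [abs_le]
    constructor <;> linarith
  · exact (hu2.of_le (by norm_num)).sub contDiff_const
  · intro x
    rw [hfd]
    exact hL x
  · intro x y
    rw [hfd, hfd]
    have := hM.dist_le_mul x y
    rwa [dist_eq_norm, dist_eq_norm] at this

theorem u_tendsto (φ : ℕ → ContDiffBump (0 : Eu κ)) (h1 : Tendsto (fun i => (φ i).rOut) atTop (𝓝 0))
    (h2 : ∀ i, (φ i).rOut ≤ 2 * (φ i).rIn) (E : Set (Eu κ)) (hE : MeasurableSet E)
    (hEv : volume E ≠ ⊤) : ∀ᵐ x : Eu κ, Tendsto (fun i => cv (φ i) (E.indicator fun _ => (1 : ℝ)) x)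
      atTop (𝓝 (E.indicator (fun _ => (1 : ℝ)) x)) := by
  have hloc : LocallyIntegrable (E.indicator fun _ => (1 : ℝ)) (volume : Measure (Eu κ)) :=
    ((integrable_indicator_iff hE).2 (integrableOn_const hEv)).locallyIntegrable
  have h3 := ContDiffBump.ae_convolution_tendsto_right_of_locallyIntegrable (K := 2) h1
    (Eventually.of_forall h2) hloc
  filter_upwards [h3] with x hx
  refine hx.congr fun i => ?_
  rw [cv_flip]

theorem VV_tendsto (φ : ℕ → ContDiffBump (0 : Eu κ)) (h1 : Tendsto (fun i => (φ i).rOut) atTop (𝓝 0))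
    (h2 : ∀ i, (φ i).rOut ≤ 2 * (φ i).rIn) (E : Set (Eu κ)) (hE : MeasurableSet E)
    (hEv : volume E ≠ ⊤) (D : Set (Eu κ)) (hD : IsCompact D) :
    Tendsto (fun i => VV D fun x => cv (φ i) (E.indicator fun _ => (1 : ℝ)) x - 1 / 2) atTop
      (𝓝 (VV D fun x => E.indicator (fun _ => (1 : ℝ)) x - 1 / 2)) := by
  have hloc : LocallyIntegrable (E.indicator fun _ => (1 : ℝ)) (volume : Measure (Eu κ)) :=
    ((integrable_indicator_iff hE).2 (integrableOn_const hEv)).locallyIntegrable
  have hae := ae_restrict_of_ae (s := D) (u_tendsto φ h1 h2 E hE hEv)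
  have hfin : IsFiniteMeasure (volume.restrict D : Measure (Eu κ)) :=
    ⟨by rw [Measure.restrict_apply_univ]; exact hD.measure_lt_top⟩
  have hcont : ∀ i, Continuous (cv (φ i) (E.indicator fun _ => (1 : ℝ))) := fun i =>
    (cv_contDiff (φ i) _ hloc 1).continuous
  unfold VV EV
  refine Tendsto.sub ?_ (Tendsto.pow ?_ 2)
  · refine Tendsto.div_const ?_ _
    refine tendsto_integral_of_dominated_convergence (fun _ => (1 : ℝ)) (fun i => ?_)
      (integrable_const _) (fun i => ?_) ?_
    · exact ((((hcont i).sub continuous_const).pow 2).aestronglyMeasurable)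
    · refine Eventually.of_forall fun x => ?_
      obtain ⟨h3, h4⟩ := u_mem (φ i) E hE x
      rw [Real.norm_eq_abs, abs_of_nonneg (sq_nonneg _)]
      nlinarith
    · filter_upwards [hae] with x hx
      exact (hx.sub_const _).pow 2
  · refine Tendsto.div_const ?_ _
    refine tendsto_integral_of_dominated_convergence (fun _ => (1 : ℝ)) (fun i => ?_)
      (integrable_const _) (fun i => ?_) ?_
    · exact (((hcont i).sub continuous_const).aestronglyMeasurable)
    · refine Eventually.of_forall fun x => ?_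
      obtain ⟨h3, h4⟩ := u_mem (φ i) E hE x
      rw [Real.norm_eq_abs, abs_le]
      constructor <;> linarith
    · filter_upwards [hae] with x hx
      exact hx.sub_const _

theorem VV_ind (E : Set (Eu κ)) (hE : MeasurableSet E) (D : Set (Eu κ)) (hD : IsCompact D)
    (hD0 : 0 < (volume D).toReal) :
    VV D (fun x => E.indicator (fun _ => (1 : ℝ)) x - 1 / 2) =
      1 / 4 - ((volume (E ∩ D)).toReal / (volume D).toReal - 1 / 2) ^ 2 := by
  have hfin : IsFiniteMeasure (volume.restrict D : Measure (Eu κ)) :=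
    ⟨by rw [Measure.restrict_apply_univ]; exact hD.measure_lt_top⟩
  have h1 : ∀ x, (E.indicator (fun _ => (1 : ℝ)) x - 1 / 2) ^ 2 = 1 / 4 := by
    intro x
    by_cases hx : x ∈ E
    · rw [indicator_of_mem hx]; norm_num
    · rw [indicator_of_notMem hx]; norm_num
  have h2 : ∫ x in D, (E.indicator (fun _ => (1 : ℝ)) x - 1 / 2) =
      (volume (E ∩ D)).toReal - 1 / 2 * (volume D).toReal := by
    rw [integral_sub ((integrable_const _).indicator hE) (integrable_const _),
      integral_indicator_const _ hE, setIntegral_const, measureReal_restrict_apply hE]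
    simp only [smul_eq_mul, mul_one, measureReal_def]
    ring
  unfold VV EV
  simp_rw [h1]
  rw [h2, setIntegral_const, smul_eq_mul, measureReal_def]
  field_simp

end

theorem t_perim : S_perim := by
  intro κ _ Ω hΩo hΩc hΩb h0 E hE hEΩ hvE P hP B hB H
  have hΩt : volume Ω ≠ ⊤ := hΩb.measure_lt_top.ne
  have hΩ0 : volume Ω ≠ 0 := (hΩo.measure_pos volume ⟨0, h0⟩).ne'
  set V := (volume Ω).toReal with hV
  have hV0 : 0 < V := ENNReal.toReal_pos hΩ0 hΩt
  have hEt : volume E ≠ ⊤ := (lt_of_le_of_lt (measure_mono hEΩ) hΩt.lt_top).ne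
  have hEV : (volume E).toReal = V / 2 := by
    rw [hvE, ENNReal.toReal_div]; simp [hV]
  have hP0 : 0 ≤ P := by
    have h := hP (fun _ => 0) contDiff_const HasCompactSupport.zero
      (by simp [tsupport]) (fun x => by simp)
    have h1 : ∀ x, dv (fun _ : Eu κ => (0 : Eu κ)) x = 0 := by
      intro x
      unfold dv
      simp
    simpa [h1] using h
  -- the radius
  obtain ⟨r, hr0, hr1, hrn⟩ : ∃ r : ℝ, 0 < r ∧ r < 1 ∧ 4 / 5 < r ^ Module.finrank ℝ (Eu κ) := by
    have h1 : Tendsto (fun r : ℝ => r ^ Module.finrank ℝ (Eu κ)) (𝓝[<] 1) (𝓝 1) := by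
      have h2 := ((continuous_pow (M := ℝ) (Module.finrank ℝ (Eu κ))).tendsto 1).mono_left
        (nhdsWithin_le_nhds (s := Iio (1 : ℝ)))
      simpa using h2
    have h3 : ∀ᶠ r : ℝ in 𝓝[<] 1, 4 / 5 < r ^ Module.finrank ℝ (Eu κ) :=
      h1.eventually (Ioi_mem_nhds (by norm_num))
    obtain ⟨r, h4, h5⟩ := (h3.and (Ioo_mem_nhdsLT zero_lt_one)).exists
    exact ⟨r, h5.1, h5.2, h4⟩
  set D := r • closure Ω with hD
  have hDc : IsCompact D := hΩb.isCompact_closure.smul r
  have hDΩ : D ⊆ Ω := by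
    rintro x ⟨y, hy, rfl⟩
    have h1 := hΩc.combo_interior_closure_mem_interior (x := 0) (y := y) (a := 1 - r) (b := r)
      (by rwa [hΩo.interior_eq]) hy (by linarith) hr0.le (by ring)
    rw [smul_zero, zero_add] at h1
    exact interior_subset h1
  have hvD : (volume D).toReal = r ^ Module.finrank ℝ (Eu κ) * V := by
    rw [hD, Measure.addHaar_smul_of_nonneg _ hr0.le,
      measure_closure_of_null_frontier (hΩc.addHaar_frontier _), ENNReal.toReal_mul,
      ENNReal.toReal_ofReal (by positivity)]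
  have hrn1 : r ^ Module.finrank ℝ (Eu κ) ≤ 1 := pow_le_one₀ hr0.le hr1.le
  have hvD0 : 0 < (volume D).toReal := by rw [hvD]; positivity
  have hDt : volume D ≠ ⊤ := hDc.measure_lt_top.ne
  -- the part of E in D
  set a := (volume (E ∩ D)).toReal with ha
  have ha1 : a ≤ V / 2 := by
    rw [← hEV]
    exact ENNReal.toReal_mono hEt (measure_mono inter_subset_left)
  have ha2 : (volume D).toReal - V / 2 ≤ a := by
    have h1 : (volume (D ∩ E)).toReal + (volume (D \ E)).toReal = (volume D).toReal := by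
      rw [← ENNReal.toReal_add (measure_ne_top_of_subset inter_subset_left hDt)
        (measure_ne_top_of_subset sdiff_subset hDt), measure_inter_add_sdiff _ hE]
    have h2 : (volume (D \ E)).toReal ≤ V / 2 := by
      have h3 : (volume (Ω \ E)).toReal = V / 2 := by
        rw [measure_sdiff hEΩ hE.nullMeasurableSet hEt, ENNReal.toReal_sub_of_le
          (measure_mono hEΩ) hΩt, hEV]
        linarith
      rw [← h3]
      exact ENNReal.toReal_mono (measure_ne_top_of_subset sdiff_subset hΩt)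
        (measure_mono (sdiff_subset_sdiff_left hDΩ))
    rw [ha, inter_comm]
    linarith
  have hVV : 1 / 5 < VV D (fun x => E.indicator (fun _ => (1 : ℝ)) x - 1 / 2) := by
    rw [VV_ind E hE D hDc hvD0, ← ha]
    have h1 : |a / (volume D).toReal - 1 / 2| ≤ 1 / 8 := by
      have h2 : a / (volume D).toReal - 1 / 2 = (a - (volume D).toReal / 2) / (volume D).toReal := by
        field_simp
      rw [h2, abs_div, abs_of_pos hvD0, div_le_iff₀ hvD0, abs_le, hvD]
      rw [hvD] at ha2
      constructor <;> nlinarith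
    have h3 : (a / (volume D).toReal - 1 / 2) ^ 2 ≤ (1 / 8) ^ 2 := by
      rw [← sq_abs]
      exact pow_le_pow_left₀ (abs_nonneg _) h1 2
    linarith
  -- the mollifiers
  obtain ⟨δ, hδ0, hδ⟩ := hDc.exists_cthickening_subset_open hΩo hDΩ
  let φ : ℕ → ContDiffBump (0 : Eu κ) := fun i =>
    ⟨δ / (2 * ((i : ℝ) + 1)), δ / ((i : ℝ) + 1), by positivity, by
      rw [div_lt_div_iff₀ (by positivity) (by positivity)]
      nlinarith⟩
  have hφ1 : Tendsto (fun i => (φ i).rOut) atTop (𝓝 0) := by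
    have h1 := (tendsto_one_div_add_atTop_nhds_zero_nat (𝕜 := ℝ)).const_mul δ
    rw [mul_zero] at h1
    refine h1.congr fun i => ?_
    show δ * (1 / ((i : ℝ) + 1)) = δ / ((i : ℝ) + 1)
    ring
  have hφ2 : ∀ i, (φ i).rOut ≤ 2 * (φ i).rIn := by
    intro i
    show δ / ((i : ℝ) + 1) ≤ 2 * (δ / (2 * ((i : ℝ) + 1)))
    apply le_of_eq
    field_simp
  have hφ3 : ∀ i, (φ i).rOut ≤ δ := by
    intro i
    show δ / ((i : ℝ) + 1) ≤ δ
    refine div_le_self hδ0.le ?_
    have : (0 : ℝ) ≤ i := Nat.cast_nonneg i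
    linarith
  obtain ⟨i, hi⟩ := ((VV_tendsto φ hφ1 hφ2 E hE hEt D hDc).eventually (Ioi_mem_nhds hVV)).exists
  obtain ⟨L, M, hsm⟩ := sm_f (φ i) E hE (hΩb.subset hEΩ) hEt
  have hfin := H r hr0 hr1 _ L M hsm (fun x => by
    obtain ⟨h1, h2⟩ := u_mem (φ i) E hE x
    rw [abs_le]
    constructor <;> linarith) hi
  have hkey := perim_key Ω E D hE hEt P hP hDc δ hδ (φ i) (hφ3 i)
  have hfd : ∀ x, fderiv ℝ (fun x => cv (φ i) (E.indicator fun _ => (1 : ℝ)) x - 1 / 2) x =
      fderiv ℝ (cv (φ i) (E.indicator fun _ => (1 : ℝ))) x := fun x => fderiv_sub_const _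
  have hEVle : EV D (fun x => ‖fderiv ℝ (fun x => cv (φ i) (E.indicator fun _ => (1 : ℝ)) x - 1 / 2) x‖)
      ≤ P / (volume D).toReal := by
    unfold EV
    simp_rw [hfd]
    exact div_le_div_of_nonneg_right hkey hvD0.le
  have hEV0 : 0 ≤ EV D (fun x => ‖fderiv ℝ (fun x => cv (φ i) (E.indicator fun _ => (1 : ℝ)) x - 1 / 2) x‖) := by
    unfold EV
    exact div_nonneg (integral_nonneg fun x => norm_nonneg _) hvD0.le
  have h5 : 1 / 5 < (B * (P / (volume D).toReal)) ^ 2 := by
    refine lt_of_lt_of_le hi (hfin.trans ?_)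
    exact pow_le_pow_left₀ (mul_nonneg hB.le hEV0) (mul_le_mul_of_nonneg_left hEVle hB.le) 2
  have h6 : (volume D).toReal ^ 2 < 5 * (B * P) ^ 2 := by
    have h7 : (B * (P / (volume D).toReal)) ^ 2 = (B * P) ^ 2 / (volume D).toReal ^ 2 := by
      rw [← mul_div_assoc, div_pow]
    rw [h7, lt_div_iff₀ (by positivity)] at h5
    linarith
  have h8 : 4 / 5 * V ≤ (volume D).toReal := by
    rw [hvD]
    exact mul_le_mul_of_nonneg_right hrn.le hV0.le
  have h9 : 0 ≤ B * P := mul_nonneg hB.le hP0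
  have h10 : V ^ 2 ≤ (3 * B * P) ^ 2 := by nlinarith
  exact (le_abs_self V).trans (abs_le_of_sq_le_sq h10 (by positivity))

end Pool.Agent.W800.KH
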